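import Mathlib
import Pool.Agent.Q34.RT.Aff
import Pool.Agent.TH143.HE.PCur

set_option autoImplicit false

/-! # Cyclotomic points, radical points and rational curves on projective varieties -/

namespace Pool.Agent.Q34.RP

open Finset Pool.Agent.H533R3.SL Pool.Agent.Q34.CL Pool.Agent.Q34.RD
open Pool.Agent.Q34.RT (CycHouseQ cycHouseQ_zero cycHouseQ_root exists_lengthQ)
open Pool.Agent.Helper259.AbsHt
open Pool.Agent.TH143.HE (IsPtP RatCurvesIn)

variable {n r : ℕ} {K : Type} [Field K] {ι κ : Type}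

/-- `x` is a vector of homogeneous coordinates of a point of `X = {F = 0}` outside `Z = {G = 0}` -/
def POn {Ω : Type} [Field Ω] [Algebra K Ω] (F : ι → MvPolynomial (Fin (n + 1)) K)
    (G : κ → MvPolynomial (Fin (n + 1)) K) (x : Fin (n + 1) → Ω) : Prop :=
  x ≠ 0 ∧ (∀ i, MvPolynomial.aeval x (F i) = 0) ∧ ∃ l, MvPolynomial.aeval x (G l) ≠ 0

/-- Every point of `X` outside `Z` with homogeneous coordinates `∑ u j V j`, with roots of unity or zero
`u j` and vectors `V 1, …, V r` over a number field `L ⊇ K`, is also given by zero or roots of unity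
of one order `m ≤ (9 r d [L : ℚ]) ^ (2 r)`. -/
def OrdersBounded (F : ι → MvPolynomial (Fin (n + 1)) K) (G : κ → MvPolynomial (Fin (n + 1)) K) :
    Prop :=
  ∀ (d : ℕ), 1 ≤ d → (∀ i, ∃ e ≤ d, (F i).IsHomogeneous e) →
    ∀ (L : Type) [Field L] [NumberField L] [Algebra K L] [Algebra K Qbar] [Algebra L Qbar]
      [IsScalarTower K L Qbar] (r : ℕ) (V : Fin r → Fin (n + 1) → L) (u : Fin r → Qbar),
      (∀ j, u j = 0 ∨ ∃ m : ℕ, 0 < m ∧ u j ^ m = 1) → POn F G (lin u V) →
      ∃ m, 0 < m ∧ m ≤ (9 * r * d * Module.finrank ℚ L) ^ (2 * r) ∧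
        ∃ (w : Fin r → Qbar) (c : Qbar), (∀ j, w j = 0 ∨ w j ^ m = 1) ∧ c ≠ 0 ∧
          ∀ i, lin w V i = c * lin u V i

/-- For every number field `L ⊇ K`, all `e 1, …, e g` in `L` and every `B`, only finitely many points
of `X` outside `Z` have homogeneous coordinates in `∑ i, e i β i`, where the `β i` are cyclotomic
integers (of any conductor) all of whose conjugates have absolute value at most `B`. -/
def CycIntegralFinite (F : ι → MvPolynomial (Fin (n + 1)) K)
    (G : κ → MvPolynomial (Fin (n + 1)) K) : Prop :=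
  ∀ (L : Type) [Field L] [NumberField L] [Algebra K L] [Algebra K Qbar] [Algebra L Qbar]
    [IsScalarTower K L Qbar] (g : ℕ) (e : Fin g → L) (B : ℝ),
    {P : Projectivization Qbar (Fin (n + 1) → Qbar) | ∃ (x : Fin (n + 1) → Qbar) (h : x ≠ 0),
      P = Projectivization.mk Qbar x h ∧ POn F G x ∧
      ∀ a, ∃ β : Fin g → Qbar, (∀ i, CycHouseQ B (β i)) ∧
        x a = ∑ i, algebraMap L Qbar (e i) * β i}.Finite

/-- Every point of `X` outside `Z` with homogeneous coordinates `∑ u j V j`, where the `u j` have a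
power in a number field `L ⊇ K` and the `V j` are vectors over `L`, is also given by `w j` with
`w j ^ B ∈ L` for one exponent `B ≤ radBound r d [L : ℚ]`. -/
def ExponentsBounded (F : ι → MvPolynomial (Fin (n + 1)) K)
    (G : κ → MvPolynomial (Fin (n + 1)) K) : Prop :=
  ∀ (d : ℕ), 1 ≤ d → (∀ i, ∃ e ≤ d, (F i).IsHomogeneous e) →
    ∀ (L : Type) [Field L] [NumberField L] [Algebra K L] [Algebra K Qbar] [Algebra L Qbar]
      [IsScalarTower K L Qbar] (r : ℕ) (V : Fin r → Fin (n + 1) → L) (u : Fin r → Qbar),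
      (∀ j, ∃ N : ℕ, 0 < N ∧ ∃ a : L, algebraMap L Qbar a = u j ^ N) → POn F G (lin u V) →
      ∃ B, 0 < B ∧ B ≤ radBound r d (Module.finrank ℚ L) ∧
        ∃ (w : Fin r → Qbar) (c : Qbar), (∀ j, ∃ a : L, algebraMap L Qbar a = w j ^ B) ∧ c ≠ 0 ∧
          ∀ i, lin w V i = c * lin u V i

/-- For every number field `L ⊇ K`, all `r` and `H`, only finitely many points of `X` outside `Z` of
height at most `H` have homogeneous coordinates `∑ u j V j`, a sum of `r` terms, where the `u j` have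
a power in `L` and the `V j` are vectors over `L`. -/
def RadicalNorthcott (F : ι → MvPolynomial (Fin (n + 1)) K)
    (G : κ → MvPolynomial (Fin (n + 1)) K) : Prop :=
  ∀ (L : Type) [Field L] [NumberField L] [Algebra K L] [Algebra K Qbar] [Algebra L Qbar]
    [IsScalarTower K L Qbar] (r : ℕ) (H : ℝ),
    {P : Projectivization Qbar (Fin (n + 1) → Qbar) |
      ∃ (V : Fin r → Fin (n + 1) → L) (u : Fin r → Qbar) (h : lin u V ≠ 0),
        (∀ j, ∃ N : ℕ, 0 < N ∧ ∃ a : L, algebraMap L Qbar a = u j ^ N) ∧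
        P = Projectivization.mk Qbar (lin u V) h ∧ POn F G (lin u V) ∧
        absLogHeight (lin u V) ≤ H}.Finite

/-- All nonconstant maps from the complex projective line to `X` have their image in `Z`. -/
def RationalIn (σ : K →+* ℂ) (F : ι → MvPolynomial (Fin (n + 1)) K)
    (G : κ → MvPolynomial (Fin (n + 1)) K) : Prop :=
  ∀ p : Fin (n + 1) → Polynomial ℂ,
    (∀ t i, MvPolynomial.eval₂ σ (fun j => (p j).eval t) (F i) = 0) →
    (∃ i j a b, (p i).eval a * (p j).eval b ≠ (p j).eval a * (p i).eval b) →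
    ∀ t l, MvPolynomial.eval₂ σ (fun j => (p j).eval t) (G l) = 0

theorem isPtP_span {A : Type} [CommRing A] (φ : K →+* A)
    (F : ι → MvPolynomial (Fin (n + 1)) K) (hF : ∀ i, ∃ e, (F i).IsHomogeneous e)
    (x : Fin (n + 1) → A) :
    IsPtP φ (Ideal.span (Set.range F)) x ↔ ∀ i, MvPolynomial.eval₂ φ x (F i) = 0 := by
  constructor
  · intro h i
    exact h (F i) (Ideal.subset_span ⟨i, rfl⟩) (hF i)
  · intro h P hP _
    have h1 : Ideal.span (Set.range F) ≤ RingHom.ker (MvPolynomial.eval₂Hom φ x) := by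
      rw [Ideal.span_le]
      rintro _ ⟨i, rfl⟩
      exact h i
    exact h1 hP

theorem rationalIn_iff (σ : K →+* ℂ) (F : ι → MvPolynomial (Fin (n + 1)) K)
    (hF : ∀ i, ∃ e, (F i).IsHomogeneous e) (G : κ → MvPolynomial (Fin (n + 1)) K)
    (hG : ∀ i, ∃ e, (G i).IsHomogeneous e) :
    RationalIn σ F G ↔
      RatCurvesIn σ (Ideal.span (Set.range F)) (Ideal.span (Set.range G)) := by
  unfold RationalIn RatCurvesIn Pool.Agent.TH143.HE.NonConst
  simp only [isPtP_span σ F hF, isPtP_span σ G hG]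

/-- the curves over `Qbar` -/
theorem curCond [NumberField K] (σ : K →+* ℂ) (F : ι → MvPolynomial (Fin (n + 1)) K)
    (G : κ → MvPolynomial (Fin (n + 1)) K) (h : RationalIn σ F G) [Algebra K Qbar]
    (g : κ) (c : Fin r → Fin (n + 1) → Qbar) (l : Fin r → ℕ)
    (h1 : ∀ P ∈ Set.range F, MvPolynomial.aeval (cur c l) P = 0)
    (h2 : ∃ i i', cur c l i * Polynomial.C (∑ j, c j i') ≠
          cur c l i' * Polynomial.C (∑ j, c j i)) :
    MvPolynomial.aeval (fun i => ∑ j, c j i) (G g) = 0 := by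
  have halgQ : Algebra.IsAlgebraic ℚ Qbar := AlgebraicClosure.isAlgebraic ℚ
  have halg : Algebra.IsAlgebraic K Qbar := Algebra.IsAlgebraic.tower_top (K := ℚ) K
  let _ : Algebra K ℂ := σ.toAlgebra
  let τ : Qbar →ₐ[K] ℂ := IsAlgClosed.lift
  have hτ : ∀ a : K, τ (algebraMap K Qbar a) = σ a := fun a => τ.commutes a
  have hev1 : ∀ i, (cur c l i).eval 1 = ∑ j, c j i := by
    intro i
    unfold cur
    rw [Polynomial.eval_finsetSum]
    exact Finset.sum_congr rfl fun j _ => by simp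
  have hmap : ∀ (P : MvPolynomial (Fin (n + 1)) K) (x : Fin (n + 1) → Qbar),
      MvPolynomial.eval₂ σ (fun j => τ (x j)) P = τ (MvPolynomial.aeval x P) := by
    intro P x
    have h3 := MvPolynomial.eval₂_comp_left (τ : Qbar →+* ℂ) (algebraMap K Qbar) x P
    have h4 : (τ : Qbar →+* ℂ).comp (algebraMap K Qbar) = σ := RingHom.ext hτ
    rw [h4] at h3
    exact h3.symm
  have hpev : ∀ (i : Fin (n + 1)) (t : Qbar),
      ((cur c l i).map (τ : Qbar →+* ℂ)).eval (τ t) = τ ((cur c l i).eval t) := by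
    intro i t
    exact Polynomial.eval_map_apply (τ : Qbar →+* ℂ) t
  have hlin : ∀ P : MvPolynomial (Fin (n + 1)) K, MvPolynomial.aeval (cur c l) P = 0 →
      ∀ t : ℂ, MvPolynomial.eval₂ σ
        (fun j => ((cur c l j).map (τ : Qbar →+* ℂ)).eval t) P = 0 := by
    intro P hP t
    have h3 : (MvPolynomial.aeval (cur c l) P).map (τ : Qbar →+* ℂ) =
        MvPolynomial.eval₂ (Polynomial.C.comp σ)
          (fun j => (cur c l j).map (τ : Qbar →+* ℂ)) P := by
      rw [MvPolynomial.aeval_def, ← Polynomial.coe_mapRingHom, MvPolynomial.eval₂_comp_left]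
      congr 1
      ext a
      simp [hτ]
    rw [← Pool.Agent.TH143.HE.eval₂_eval, ← h3, hP]
    simp
  have h3 := h (fun j => (cur c l j).map (τ : Qbar →+* ℂ)) (fun t i => hlin _ (h1 _ ⟨i, rfl⟩) t)
    (by
      obtain ⟨i, j, a, b, hab⟩ := Pool.Agent.TH409.SH.nonconst_of (cur c l) (by
        obtain ⟨i, i', hi⟩ := h2
        exact ⟨i, i', by rw [hev1, hev1]; exact hi⟩)
      refine ⟨i, j, τ a, τ b, fun heq => hab ?_⟩
      rw [hpev, hpev, hpev, hpev, ← map_mul, ← map_mul] at heq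
      exact (τ : Qbar →+* ℂ).injective heq) (τ 1) g
  simp only [hpev, hev1] at h3
  rw [hmap] at h3
  exact (map_eq_zero τ).1 h3

theorem orders_of_rational [NumberField K] (σ : K →+* ℂ)
    (F : ι → MvPolynomial (Fin (n + 1)) K)
    (G : κ → MvPolynomial (Fin (n + 1)) K) (hG : ∀ i, ∃ e, (G i).IsHomogeneous e)
    (h : RationalIn σ F G) : OrdersBounded F G := by
  intro d hd hF L _ _ _ _ _ _ r V u hu hx
  obtain ⟨hx0, hxF, g, hg⟩ := hx
  have hFF : ∀ P ∈ Set.range F, ∃ e, e ≤ d ∧ P.IsHomogeneous e := by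
    rintro _ ⟨i, rfl⟩
    exact hF i
  exact bounded_order (L := Qbar) (Set.range F) d hd hFF (G g) (hG g)
    (fun c l h1 h2 => curCond σ F G h g c l h1 h2) (Module.finrank ℚ L)
    (cycDegree_numberField L Qbar _ le_rfl) V u hu ⟨hx0, by
      rintro _ ⟨i, rfl⟩
      exact hxF i, hg⟩

theorem exponents_of_rational [NumberField K] (σ : K →+* ℂ)
    (F : ι → MvPolynomial (Fin (n + 1)) K)
    (G : κ → MvPolynomial (Fin (n + 1)) K) (hG : ∀ i, ∃ e, (G i).IsHomogeneous e)
    (h : RationalIn σ F G) : ExponentsBounded F G := by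
  intro d hd hF L _ _ _ _ _ _ r V u hu hx
  have halgQ : Algebra.IsAlgebraic ℚ Qbar := AlgebraicClosure.isAlgebraic ℚ
  have halg : Algebra.IsAlgebraic L Qbar := Algebra.IsAlgebraic.tower_top (K := ℚ) L
  obtain ⟨hx0, hxF, g, hg⟩ := hx
  have hFF : ∀ P ∈ Set.range F, ∃ e, e ≤ d ∧ P.IsHomogeneous e := by
    rintro _ ⟨i, rfl⟩
    exact hF i
  exact bounded_radical (Set.range F) d hd hFF (G g) (hG g)
    (fun c l h1 h2 => curCond σ F G h g c l h1 h2) (Module.finrank ℚ L)
    (cycDegree_numberField L Qbar _ le_rfl) V u hu ⟨hx0, by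
      rintro _ ⟨i, rfl⟩
      exact hxF i, hg⟩

/-- a common degree -/
theorem exists_degree [Finite ι] (F : ι → MvPolynomial (Fin (n + 1)) K)
    (hF : ∀ i, ∃ e, (F i).IsHomogeneous e) :
    ∃ d, 1 ≤ d ∧ ∀ i, ∃ e ≤ d, (F i).IsHomogeneous e := by
  have := Fintype.ofFinite ι
  choose e he using hF
  refine ⟨∑ i, e i + 1, by omega, fun i => ⟨e i, ?_, he i⟩⟩
  have := Finset.single_le_sum (f := e) (fun _ _ => Nat.zero_le _) (Finset.mem_univ i)
  omega

theorem cyc_of_orders [Finite ι] (F : ι → MvPolynomial (Fin (n + 1)) K)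
    (hF : ∀ i, ∃ e, (F i).IsHomogeneous e)
    (G : κ → MvPolynomial (Fin (n + 1)) K) (h : OrdersBounded F G) : CycIntegralFinite F G := by
  classical
  intro L _ _ _ _ _ _ g e B
  obtain ⟨Λ, hΛ⟩ := exists_lengthQ B
  obtain ⟨d, hd, hFd⟩ := exists_degree F hF
  let I := Fin (n + 1) × Fin g × Fin Λ
  let eq := Fintype.equivFin I
  set r := Fintype.card I with hr
  let V : Fin r → Fin (n + 1) → L := fun j b =>
    if (eq.symm j).1 = b then e (eq.symm j).2.1 else 0
  set M := (9 * r * d * Module.finrank ℚ L) ^ (2 * r) with hM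
  have hfin : ({w : Fin r → Qbar | ∃ m, 0 < m ∧ m ≤ M ∧ ∀ j, w j = 0 ∨ w j ^ m = 1}).Finite := by
    let W : Finset (Fin r → Qbar) := (Finset.Icc 1 M).biUnion fun m =>
      Fintype.piFinset fun _ => insert 0 (Polynomial.nthRootsFinset m (1 : Qbar))
    refine W.finite_toSet.subset ?_
    rintro w ⟨m, hm, hmM, hw⟩
    rw [Finset.mem_coe, Finset.mem_biUnion]
    refine ⟨m, Finset.mem_Icc.2 ⟨hm, hmM⟩, ?_⟩
    rw [Fintype.mem_piFinset]
    intro j
    rw [Finset.mem_insert, Polynomial.mem_nthRootsFinset hm]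
    exact hw j
  let pt : (Fin r → Qbar) → Projectivization Qbar (Fin (n + 1) → Qbar) := fun w =>
    if h : lin w V ≠ 0 then Projectivization.mk Qbar _ h
    else Projectivization.mk Qbar (fun _ => 1) (fun h => one_ne_zero (congrFun h 0))
  refine (hfin.image pt).subset ?_
  rintro P ⟨x, hx0, rfl, hx, hβ⟩
  choose β hβ1 hβ2 using hβ
  choose v hv hvs using fun a i => hΛ (β a i) (hβ1 a i)
  let u : Fin r → Qbar := fun j => v (eq.symm j).1 (eq.symm j).2.1 (eq.symm j).2.2
  have hxu : lin u V = x := by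
    funext b
    unfold lin
    rw [← Equiv.sum_comp eq]
    have h1 : ∀ p : I, u (eq p) * algebraMap L Qbar (V (eq p) b) =
        if p.1 = b then v p.1 p.2.1 p.2.2 * algebraMap L Qbar (e p.2.1) else 0 := by
      intro p
      simp only [u, V, Equiv.symm_apply_apply]
      split_ifs with h
      · rfl
      · rw [map_zero, mul_zero]
    rw [Finset.sum_congr rfl fun p _ => h1 p, Fintype.sum_prod_type, Finset.sum_eq_single b]
    · simp only [if_true]
      rw [Fintype.sum_prod_type, hβ2]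
      refine Finset.sum_congr rfl fun i _ => ?_
      rw [← hvs b i, Finset.mul_sum]
      exact Finset.sum_congr rfl fun l _ => mul_comm _ _
    · intro a _ hab
      refine Finset.sum_eq_zero fun p _ => ?_
      rw [if_neg hab]
    · intro h2
      exact absurd (Finset.mem_univ b) h2
  obtain ⟨m, hm, hmle, w, c, hw, hc, hws⟩ := h d hd hFd L r V u (fun j => hv _ _ _)
    (by rw [hxu]; exact hx)
  refine ⟨w, ⟨m, hm, hmle, hw⟩, ?_⟩
  have hwx : lin w V = c • x := by
    funext b
    rw [hws, hxu]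
    rfl
  have hw0 : lin w V ≠ 0 := by
    rw [hwx]
    exact smul_ne_zero hc hx0
  simp only [pt, dif_pos hw0]
  rw [Projectivization.mk_eq_mk_iff']
  exact ⟨c, hwx.symm⟩

theorem northcott_of_exponents [NumberField K] [Finite ι] [Finite κ]
    (F : ι → MvPolynomial (Fin (n + 1)) K) (hF : ∀ i, ∃ e, (F i).IsHomogeneous e)
    (G : κ → MvPolynomial (Fin (n + 1)) K) (h : ExponentsBounded F G) :
    RadicalNorthcott F G := by
  classical
  intro L _ _ _ _ _ _ r H
  obtain ⟨d, hd, hFd⟩ := exists_degree F hF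
  have h1 : ∀ g : κ, {P ∈ radPts L (Ω := Qbar) (Set.range F) (G g) r |
      absLogHeight P.rep ≤ H}.Finite := by
    intro g
    refine northcott_radPts (Set.range F) (G g) (radBound r d (Module.finrank ℚ L) ^ r)
      (fun u V hu hon => ?_) H
    obtain ⟨B, hB0, hB, w, c, hw, hc, hwc⟩ := h d hd hFd L r V u hu
      ⟨hon.1, fun i => hon.2.1 _ ⟨i, rfl⟩, g, hon.2.2⟩
    obtain ⟨K', h1, h2, h3⟩ := degree_of_radical B hB0 w hw V
    refine ⟨K', h1, h2.trans (Nat.pow_le_pow_left hB r), c, hc, fun i => ?_⟩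
    rw [← hwc]
    exact h3 i
  refine (Set.finite_iUnion h1).subset ?_
  rintro P ⟨V, u, h0, hu, rfl, ⟨hx0, hxF, g, hg⟩, hH⟩
  rw [Set.mem_iUnion]
  refine ⟨g, ⟨u, V, hu, h0, rfl, hx0, ?_, hg⟩, ?_⟩
  · rintro _ ⟨i, rfl⟩
    exact hxF i
  · rw [rep_height]
    exact hH

/-- a rational curve in `X`, not in `Z`, has infinitely many points of bounded height given by roots
of unity -/
theorem infinite_of_rational [NumberField K] (σ : K →+* ℂ)
    (F : ι → MvPolynomial (Fin (n + 1)) K)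
    (G : κ → MvPolynomial (Fin (n + 1)) K) (h : ¬ RationalIn σ F G) :
    ∃ (L : Type) (_ : Field L) (_ : NumberField L) (_ : Algebra K L) (_ : Algebra K Qbar)
      (_ : Algebra L Qbar) (_ : IsScalarTower K L Qbar) (N : ℕ) (V : Fin N → Fin (n + 1) → L)
      (H : ℝ),
      {P : Projectivization Qbar (Fin (n + 1) → Qbar) | ∃ (u : Fin N → Qbar) (h : lin u V ≠ 0),
        (∀ j, u j = 0 ∨ ∃ m : ℕ, 0 < m ∧ u j ^ m = 1) ∧
        P = Projectivization.mk Qbar (lin u V) h ∧ POn F G (lin u V) ∧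
        absLogHeight (lin u V) ≤ H}.Infinite := by
  classical
  let _ : Algebra K ℂ := σ.toAlgebra
  unfold RationalIn at h
  push Not at h
  obtain ⟨p, hpF, ⟨i1, i2, a1, b1, hnc⟩, t1, g, hg'⟩ := h
  have hae : ∀ (P : MvPolynomial (Fin (n + 1)) K) (q : Fin (n + 1) → Polynomial ℂ) (t : ℂ),
      (MvPolynomial.aeval q P).eval t = MvPolynomial.eval₂ σ (fun j => (q j).eval t) P := by
    intro P q t
    rw [MvPolynomial.aeval_def, ← Pool.Agent.TH143.HE.eval₂_eval]
    rfl
  -- a point of the curve off `Z` where the coordinates do not all vanish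
  obtain ⟨t0, hg, i0, hi0⟩ : ∃ t0, MvPolynomial.eval₂ σ (fun j => (p j).eval t0) (G g) ≠ 0 ∧
      ∃ i0, (p i0).eval t0 ≠ 0 := by
    have hq1 : MvPolynomial.aeval p (G g) ≠ 0 := by
      intro h0
      apply hg'
      rw [← hae, h0, Polynomial.eval_zero]
    obtain ⟨i0, hi0⟩ : ∃ i0, p i0 ≠ 0 := by
      by_contra hcon
      push Not at hcon
      apply hnc
      rw [hcon i1, hcon i2]
    obtain ⟨t0, ht0⟩ := Polynomial.exists_eval_ne_zero_of_natDegree_lt_card
      (MvPolynomial.aeval p (G g) * p i0) (mul_ne_zero hq1 hi0) (by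
        rw [Cardinal.mk_complex]
        exact lt_of_lt_of_le (Cardinal.natCast_lt_aleph0) Cardinal.aleph0_le_continuum)
    rw [Polynomial.eval_mul] at ht0
    refine ⟨t0, ?_, i0, right_ne_zero_of_mul ht0⟩
    rw [← hae]
    exact left_ne_zero_of_mul ht0
  let p' : Fin (n + 1) → Polynomial ℂ := fun i => (p i).comp (Polynomial.X + Polynomial.C (t0 - 1))
  have hp' : ∀ i t, (p' i).eval t = (p i).eval (t + (t0 - 1)) := by
    intro i t
    simp only [p', Polynomial.eval_comp, Polynomial.eval_add, Polynomial.eval_X,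
      Polynomial.eval_C]
  have hp1 : ∀ i, (p' i).eval 1 = (p i).eval t0 := by
    intro i
    rw [hp']
    congr 1
    ring
  have hF0 : ∀ P ∈ Set.range F, MvPolynomial.aeval p' P = 0 := by
    rintro _ ⟨i, rfl⟩
    apply Polynomial.funext
    intro t
    rw [hae, Polynomial.eval_zero]
    simp only [hp']
    exact hpF _ i
  set N : ℕ := Finset.univ.sup (fun i => (p' i).natDegree) + 1 with hN
  have hNc : ∀ i m, N ≤ m → (p' i).coeff m = 0 := by
    intro i m hm
    apply Polynomial.coeff_eq_zero_of_natDegree_lt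
    have := Finset.le_sup (f := fun i => (p' i).natDegree) (Finset.mem_univ i)
    omega
  have hg1 : MvPolynomial.aeval (fun i => (p' i).eval 1) (G g) ≠ 0 := by
    intro h0
    apply hg
    have h1 : (fun j => (p j).eval t0) = fun i => (p' i).eval 1 := by
      funext i
      exact (hp1 i).symm
    rw [h1]
    exact h0
  have hc : ∃ i j, p' i * Polynomial.C ((p' j).eval 1) ≠ p' j * Polynomial.C ((p' i).eval 1) := by
    by_contra hcon
    push Not at hcon
    apply hnc
    have key : ∀ (i : Fin (n + 1)) (t : ℂ),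
        (p i).eval t * (p i0).eval t0 = (p i0).eval t * (p i).eval t0 := by
      intro i t
      have h1 := congrArg (Polynomial.eval (t - (t0 - 1))) (hcon i i0)
      rw [Polynomial.eval_mul, Polynomial.eval_mul, Polynomial.eval_C, Polynomial.eval_C,
        hp1, hp1, hp' i (t - (t0 - 1)), hp' i0 (t - (t0 - 1)), sub_add_cancel] at h1
      exact h1
    have e1 := key i1 a1
    have e2 := key i2 b1
    have e3 := key i2 a1
    have e4 := key i1 b1
    apply mul_right_cancel₀ (mul_ne_zero hi0 hi0)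
    linear_combination ((p i2).eval b1 * (p i0).eval t0) * e1 +
      ((p i0).eval a1 * (p i1).eval t0) * e2 -
      ((p i1).eval b1 * (p i0).eval t0) * e3 - ((p i0).eval a1 * (p i2).eval t0) * e4
  obtain ⟨L, iL, iN, iA, w, h1, h2, h3⟩ := Pool.Agent.TH409.SH.specialise K ℂ p' (Set.range F)
    hF0 N hNc hc (G g) hg1
  obtain ⟨φ⟩ : Nonempty (L →+* Qbar) := ⟨(IsAlgClosed.lift : L →ₐ[ℚ] Qbar).toRingHom⟩
  let iLQ : Algebra L Qbar := φ.toAlgebra
  let iKQ : Algebra K Qbar := (φ.comp (algebraMap K L)).toAlgebra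
  have htow : IsScalarTower K L Qbar := IsScalarTower.of_algebraMap_eq fun _ => rfl
  refine ⟨L, iL, iN, iA, iKQ, iLQ, htow, N, w,
    N + Pool.Agent.Y215.SK.hV (fun j i => algebraMap L Qbar (w j i)), ?_⟩
  have hinf := curve_infinite (C := Qbar) (Set.range F) (G g) N w h1 h2 h3
  refine hinf.mono fun Q hQ => ?_
  have hQht := cycPts_height (Set.range F) (G g) w Q hQ
  obtain ⟨u, hu, hne, rfl, hon⟩ := hQ
  rw [rep_height] at hQht
  exact ⟨u, hne, hu, rfl, ⟨hon.1, fun i => hon.2.1 _ ⟨i, rfl⟩, g, hon.2.2⟩, hQht⟩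

theorem rational_of_northcott [NumberField K] (σ : K →+* ℂ)
    (F : ι → MvPolynomial (Fin (n + 1)) K)
    (G : κ → MvPolynomial (Fin (n + 1)) K) (h : RadicalNorthcott F G) : RationalIn σ F G := by
  by_contra hcon
  obtain ⟨L, iL, iN, iA, iKQ, iLQ, htow, N, V, H, hinf⟩ := infinite_of_rational σ F G hcon
  apply hinf
  refine (h L N H).subset ?_
  rintro P ⟨u, h0, hu, rfl, hon, hH⟩
  refine ⟨V, u, h0, fun j => ?_, rfl, hon, hH⟩
  rcases hu j with h0 | ⟨m, hm, hm1⟩
  · exact ⟨1, one_pos, 0, by rw [map_zero, h0, pow_one]⟩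
  · exact ⟨m, hm, 1, by rw [map_one, hm1]⟩

theorem rational_of_cyc [NumberField K] (σ : K →+* ℂ)
    (F : ι → MvPolynomial (Fin (n + 1)) K)
    (G : κ → MvPolynomial (Fin (n + 1)) K) (h : CycIntegralFinite F G) : RationalIn σ F G := by
  classical
  by_contra hcon
  obtain ⟨L, iL, iN, iA, iKQ, iLQ, htow, N, V, H, hinf⟩ := infinite_of_rational σ F G hcon
  apply hinf
  let eq := Fintype.equivFin (Fin N × Fin (n + 1))
  refine (h L (Fintype.card (Fin N × Fin (n + 1)))
    (fun j => V (eq.symm j).1 (eq.symm j).2) 1).subset ?_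
  rintro P ⟨u, h0, hu, rfl, hon, hH⟩
  refine ⟨lin u V, h0, rfl, hon, fun a => ⟨fun j => if (eq.symm j).2 = a then u (eq.symm j).1
    else 0, fun j => ?_, ?_⟩⟩
  · show CycHouseQ 1 (if (eq.symm j).2 = a then u (eq.symm j).1 else 0)
    split_ifs
    · rcases hu (eq.symm j).1 with h0 | ⟨m, hm, hm1⟩
      · rw [h0]
        exact cycHouseQ_zero
      · exact cycHouseQ_root _ m hm hm1
    · exact cycHouseQ_zero
  · rw [← Equiv.sum_comp eq]
    simp only [Equiv.symm_apply_apply]
    rw [Fintype.sum_prod_type]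
    unfold lin
    refine Finset.sum_congr rfl fun j _ => ?_
    rw [Finset.sum_eq_single a]
    · rw [if_pos rfl, mul_comm]
    · intro b _ hb
      rw [if_neg hb, mul_zero]
    · intro h3
      exact absurd (Finset.mem_univ a) h3

end Pool.Agent.Q34.RP
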